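import Mathlib
import Pool.Agent.Run7.h452.Qf

/-!
# Word equations with length constraints: satisfiability is undecidable

For every alphabet with at least two letters there is no algorithm which decides, for every
quantifier-free formula built from word equations and linear length constraints, whether it is
satisfied by some assignment of words to the variables.
-/

set_option autoImplicit false

namespace Pool.Agent.Results.MP_a11166_lc.FormulasUndecidable

/-- A word over the alphabet `Fin k` and the variables `x_0, x_1, ...`: the symbol `Sum.inl a` is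
the letter `a`, the symbol `Sum.inr j` is the variable `x_j`. -/
abbrev Word (k : ℕ) : Type := List (Fin k ⊕ ℕ)

/-- The image of a word under the morphism which maps `x_j` to `h j` and fixes all letters. -/
def image {k : ℕ} (h : ℕ → List (Fin k)) (u : Word k) : List (Fin k) :=
  u.flatMap (Sum.elim (fun a => [a]) h)

/-- A length constraint `(r, l, c)`: the sum of all `e * |x_j|`, for the entries `(j, e)` of `l`,
stands in the relation `r` to the integer `c`; the relation is `=`, `≤` or `<` for `r = 0, 1, 2`. -/
abbrev LenCon : Type := Fin 3 × List (ℕ × ℤ) × ℤ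

/-- The length constraint holds for the lengths `ℓ j` of the `x_j`. -/
def LenCon.Holds (ℓ : ℕ → ℕ) (q : LenCon) : Prop :=
  let v : ℤ := (q.2.1.map fun p => p.2 * (ℓ p.1 : ℤ)).sum
  (q.1 = 0 ∧ v = q.2.2) ∨ (q.1 = 1 ∧ v ≤ q.2.2) ∨ (q.1 = 2 ∧ v < q.2.2)

/-- Quantifier-free formulas: Boolean combinations of word equations and length constraints. -/
inductive Formula (k : ℕ) : Type
  | eqn (u v : Word k) : Formula k
  | len (q : LenCon) : Formula k
  | neg (φ : Formula k) : Formula k
  | and (φ ψ : Formula k) : Formula k
  | or (φ ψ : Formula k) : Formula k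

/-- The assignment `h` satisfies the formula. -/
def Formula.Sat {k : ℕ} (h : ℕ → List (Fin k)) : Formula k → Prop
  | .eqn u v => image h u = image h v
  | .len q => LenCon.Holds (fun j => (h j).length) q
  | .neg φ => ¬ φ.Sat h
  | .and φ ψ => φ.Sat h ∧ ψ.Sat h
  | .or φ ψ => φ.Sat h ∨ ψ.Sat h

/-- Some assignment of words (possibly empty) to the variables satisfies the formula. -/
def Formula.Satisfiable {k : ℕ} (φ : Formula k) : Prop := ∃ h : ℕ → List (Fin k), φ.Sat h

/-- Symbols for writing formulas: word equations, length constraints, and the connectives `0`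
(negation), `1` (conjunction), `2` (disjunction). -/
abbrev Symb (k : ℕ) : Type := (Word k × Word k) ⊕ (LenCon ⊕ Fin 3)

/-- A formula written as a list of symbols, in Polish notation. -/
def Formula.code {k : ℕ} : Formula k → List (Symb k)
  | .eqn u v => [Sum.inl (u, v)]
  | .len q => [Sum.inr (Sum.inl q)]
  | .neg φ => Sum.inr (Sum.inr 0) :: φ.code
  | .and φ ψ => Sum.inr (Sum.inr 1) :: (φ.code ++ ψ.code)
  | .or φ ψ => Sum.inr (Sum.inr 2) :: (φ.code ++ ψ.code)

theorem code_append {k : ℕ} (φ : Formula k) : ∀ (ψ : Formula k) (r r' : List (Symb k)),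
    φ.code ++ r = ψ.code ++ r' → φ = ψ ∧ r = r' := by
  induction φ with
  | eqn u v =>
    intro ψ r r' h
    cases ψ <;> simp_all [Formula.code]
  | len q =>
    intro ψ r r' h
    cases ψ <;> simp_all [Formula.code]
  | neg φ ih =>
    intro ψ r r' h
    cases ψ with
    | neg ψ =>
      simp only [Formula.code, List.cons_append, List.cons.injEq, true_and] at h
      obtain ⟨h1, h2⟩ := ih _ _ _ h
      exact ⟨by rw [h1], h2⟩
    | eqn u v => simp [Formula.code] at h
    | len q => simp [Formula.code] at h
    | and a b => simp [Formula.code] at h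
    | or a b => simp [Formula.code] at h
  | and φ φ' ih ih' =>
    intro ψ r r' h
    cases ψ with
    | and ψ ψ' =>
      simp only [Formula.code, List.cons_append, List.cons.injEq, true_and,
        List.append_assoc] at h
      obtain ⟨h1, h2⟩ := ih _ _ _ h
      obtain ⟨h3, h4⟩ := ih' _ _ _ h2
      exact ⟨by rw [h1, h3], h4⟩
    | eqn u v => simp [Formula.code] at h
    | len q => simp [Formula.code] at h
    | neg a => simp [Formula.code] at h
    | or a b => simp [Formula.code] at h
  | or φ φ' ih ih' =>
    intro ψ r r' h
    cases ψ with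
    | or ψ ψ' =>
      simp only [Formula.code, List.cons_append, List.cons.injEq, true_and,
        List.append_assoc] at h
      obtain ⟨h1, h2⟩ := ih _ _ _ h
      obtain ⟨h3, h4⟩ := ih' _ _ _ h2
      exact ⟨by rw [h1, h3], h4⟩
    | eqn u v => simp [Formula.code] at h
    | len q => simp [Formula.code] at h
    | neg a => simp [Formula.code] at h
    | and a b => simp [Formula.code] at h

/-- Different formulas have different codes. -/
theorem code_injective (k : ℕ) : Function.Injective (Formula.code (k := k)) := by
  intro φ ψ h
  exact (code_append φ ψ [] [] (by rw [h])).1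

/-- conjunction of a list of formulas -/
def conj {k : ℕ} : List (Formula k) → Formula k
  | [] => .eqn [] []
  | φ :: l => .and φ (conj l)

theorem conj_sat {k : ℕ} (h : ℕ → List (Fin k)) (l : List (Formula k)) :
    (conj l).Sat h ↔ ∀ φ ∈ l, φ.Sat h := by
  induction l with
  | nil => simp [conj, Formula.Sat]
  | cons φ l ih => simp [conj, Formula.Sat, ih]

/-- **Satisfiability of word equations with length constraints is undecidable.** For every alphabet
with `k ≥ 2` letters no computable function decides satisfiability of all quantifier-free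
formulas. -/
theorem result : ∀ k : ℕ, 2 ≤ k → ¬ ∃ f : List (Symb k) → Bool,
    Computable f ∧ ∀ φ : Formula k, f φ.code = true ↔ φ.Satisfiable := by
  rintro k hk ⟨f, hf, hφ⟩
  obtain ⟨p, hp, hn⟩ := Run7.h452.exists_re
  obtain ⟨E, L, N, h⟩ := Run7.h452.monoid_re k hk hp
  apply hn
  let Ψ : Formula k := conj (E.map (fun e => .eqn e.1 e.2) ++
    (L.map (fun l => .len (0, l.1, l.2)) ++ (List.range N).map (fun j => .len (2, [(j, -1)], 0))))
  let Φ : ℕ → Formula k := fun n => .and (.len (0, [(0, 1)], ((n + 1 : ℕ) : ℤ))) Ψ
  have key : ∀ n, p n ↔ (Φ n).Satisfiable := by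
    intro n
    rw [h n]
    unfold Formula.Satisfiable
    apply exists_congr
    intro s
    simp only [Φ, Ψ, Formula.Sat, conj_sat, List.mem_append, or_imp, forall_and]
    constructor
    · rintro ⟨h1, h2, h3, h4⟩
      refine ⟨?_, ?_, ?_, ?_⟩
      · left
        simp [h4]
      · intro φ hφ'
        obtain ⟨e, he, rfl⟩ := List.mem_map.1 hφ'
        exact h1 e he
      · intro φ hφ'
        obtain ⟨l, hl, rfl⟩ := List.mem_map.1 hφ'
        left
        exact ⟨rfl, h2 l hl⟩
      · intro φ hφ'
        obtain ⟨j, hj, rfl⟩ := List.mem_map.1 hφ'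
        right; right
        refine ⟨rfl, ?_⟩
        have := h3 j (List.mem_range.1 hj)
        simp only [List.map_cons, List.map_nil, List.sum_cons, List.sum_nil]
        omega
    · rintro ⟨h4, h1, h2, h3⟩
      refine ⟨?_, ?_, ?_, ?_⟩
      · intro e he
        exact h1 _ (List.mem_map_of_mem (f := fun e => Formula.eqn e.1 e.2) he)
      · intro l hl
        have := h2 _ (List.mem_map_of_mem (f := fun l : List (ℕ × ℤ) × ℤ =>
          (Formula.len (0, l.1, l.2) : Formula k)) hl)
        rcases this with ⟨-, this⟩ | ⟨this, -⟩ | ⟨this, -⟩
        · exact this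
        · exact absurd this (by simp)
        · exact absurd this (by simp)
      · intro j hj
        have := h3 _ (List.mem_map_of_mem (f := fun j : ℕ =>
          (Formula.len (2, [(j, -1)], 0) : Formula k)) (List.mem_range.2 hj))
        rcases this with ⟨this, -⟩ | ⟨this, -⟩ | ⟨-, this⟩
        · exact absurd this (by simp)
        · exact absurd this (by simp)
        · simp only [List.map_cons, List.map_nil, List.sum_cons, List.sum_nil] at this
          omega
      · rcases h4 with ⟨-, this⟩ | ⟨this, -⟩ | ⟨this, -⟩
        · simp only [List.map_cons, List.map_nil, List.sum_cons, List.sum_nil] at this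
          omega
        · exact absurd this (by simp)
        · exact absurd this (by simp)
  have hc : Computable (fun n => (Φ n).code) := by
    apply Primrec.to_comp
    refine Primrec.list_cons.comp (Primrec.const _) (Primrec.list_append.comp ?_ (Primrec.const _))
    refine Primrec.list_cons.comp ?_ (Primrec.const [])
    refine Primrec.sumInr.comp (Primrec.sumInl.comp ?_)
    exact Primrec.pair (Primrec.const _) (Primrec.pair (Primrec.const _) Run7.h452.primrec_cast)
  refine ComputablePred.computable_iff.2 ⟨fun n => f (Φ n).code, hf.comp hc, ?_⟩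
  funext n
  rw [key n, ← hφ (Φ n)]

end Pool.Agent.Results.MP_a11166_lc.FormulasUndecidable
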